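import Pool.Agent.W262.TW.Stm2
import Pool.Agent.Helper256.KM.Mertens

/-!
# The weights of the sign patterns (helper554, subtask TW-PRS of helper262)
-/

set_option autoImplicit false

namespace Pool.Agent.W554.TW

open Finset Pool.Agent.W262.RK Pool.Agent.W262.TW

section K

variable {K : Type} [Fintype K] [DecidableEq K]

lemma PS_prime {z Y p : ℕ} (hp : p ∈ PS z Y) : p.Prime ∧ z < p := by
  unfold PS at hp
  rw [mem_filter, mem_Ioc] at hp
  exact ⟨hp.2, hp.1.1⟩

lemma jac_unit {a : ℤ} {p : ℕ} (hp : p.Prime) (h : ¬ (p : ℤ) ∣ a) :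
    jacobiSym a p = 1 ∨ jacobiSym a p = -1 := by
  apply jacobiSym.eq_one_or_neg_one
  rw [Int.gcd_comm, ← Int.isCoprime_iff_gcd_eq_one]
  exact (Nat.prime_iff_prime_int.1 hp).coprime_iff_not_dvd.2 h

lemma sign_ex (c : K → K → ℤ) (i : K) (p : ℕ) (N : Finset K) (hN : N ∈ Ths c i p) :
    ∃ s : ℤ, s * s = 1 ∧ ∀ l, l ≠ i → (jacobiSym (c i l) p = 1 ∨ jacobiSym (c i l) p = -1) →
      (if l ∈ N then (-1 : ℤ) else 1) = s * jacobiSym (c i l) p := by
  unfold Ths at hN
  rw [mem_insert, mem_singleton] at hN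
  rcases hN with rfl | rfl
  · refine ⟨1, by norm_num, fun l hl h => ?_⟩
    have hm : l ∈ ngs (c i) i p ↔ jacobiSym (c i l) p = -1 := by
      unfold ngs; simp [hl]
    rcases h with h | h
    · rw [if_neg (by rw [hm, h]; norm_num), h]; norm_num
    · rw [if_pos (by rw [hm, h]), h]; norm_num
  · refine ⟨-1, by norm_num, fun l hl h => ?_⟩
    have hm : l ∈ (univ.erase i) \ ngs (c i) i p ↔ jacobiSym (c i l) p ≠ -1 := by
      unfold ngs; simp [hl]
    rcases h with h | h
    · rw [if_pos (by rw [hm, h]; norm_num), h]; norm_num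
    · rw [if_neg (by rw [hm, h]; norm_num), h]; norm_num

variable (c : K → K → ℤ) (κ : K → ℤ) (u : K → ℕ) (I : Finset K) (i : {k // k ∈ I})

lemma card_le_filter (p : ℕ) : (ThI c κ u I i p).card ≤
    ((Ths c i p).filter (fun N => ∀ l, l ∉ I → jacobiSym (κ l * u l) p =
      if l ∈ N then -1 else 1)).card := card_image_le

lemma card_two (p : ℕ) : (ThI c κ u I i p).card ≤ 2 :=
  (card_le_filter c κ u I i p).trans ((card_filter_le _ _).trans Finset.card_le_two)

lemma card_one (p : ℕ) {l : K} (hl : l ∉ I) : (ThI c κ u I i p).card ≤ 1 := by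
  refine (card_le_filter c κ u I i p).trans ?_
  have hli : l ≠ i := fun h => hl (h ▸ i.2)
  rw [Finset.card_le_one]
  intro a ha b hb
  rw [mem_filter] at ha hb
  have h1 := ha.2 l hl
  have h2 := hb.2 l hl
  have ha1 := ha.1
  have hb1 := hb.1
  unfold Ths at ha1 hb1
  rw [mem_insert, mem_singleton] at ha1 hb1
  rw [h1] at h2
  have hm : l ∈ (univ.erase (i : K)) \ ngs (c i) i p ↔ l ∉ ngs (c i) i p := by
    simp [hli]
  rcases ha1 with rfl | rfl <;> rcases hb1 with rfl | rfl
  · rfl
  · exfalso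
    by_cases h : l ∈ ngs (c i) i p
    · rw [if_pos h, if_neg (by rw [hm]; exact fun h' => h' h)] at h2
      norm_num at h2
    · rw [if_neg h, if_pos (by rw [hm]; exact h)] at h2
      norm_num at h2
  · exfalso
    by_cases h : l ∈ ngs (c i) i p
    · rw [if_pos h, if_neg (by rw [hm]; exact fun h' => h' h)] at h2
      norm_num at h2
    · rw [if_neg h, if_pos (by rw [hm]; exact h)] at h2
      norm_num at h2
  · rfl

lemma card_half {p : ℕ} (hp : p.Prime) (hc : ∀ k : K, k ≠ (i : K) → ¬ (p : ℤ) ∣ c i k) {k l : K}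
    (hk : k ∉ I) (hl : l ∉ I) : ((ThI c κ u I i p).card : ℝ) ≤
      (1 + Jr (κ k * u k * (κ l * u l) * (c i k * c i l)) p) / 2 := by
  have hli : l ≠ i := fun h => hl (h ▸ i.2)
  have hki : k ≠ i := fun h => hk (h ▸ i.2)
  rcases Nat.eq_zero_or_pos (ThI c κ u I i p).card with h0 | h0
  · rw [h0, Nat.cast_zero]
    have h1 : (-1 : ℝ) ≤ Jr (κ k * u k * (κ l * u l) * (c i k * c i l)) p := by
      unfold Jr
      rcases jacobiSym.trichotomy (κ k * u k * (κ l * u l) * (c i k * c i l)) p with h | h | h <;>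
        rw [h] <;> norm_num
    linarith
  · have h1 : ((ThI c κ u I i p).card : ℝ) ≤ 1 := by
      exact_mod_cast card_one c κ u I i p hl
    have hne : ((Ths c i p).filter (fun N => ∀ l, l ∉ I → jacobiSym (κ l * u l) p =
        if l ∈ N then -1 else 1)).Nonempty :=
      card_pos.1 (h0.trans_le (card_le_filter c κ u I i p))
    obtain ⟨N, hN⟩ := hne
    rw [mem_filter] at hN
    obtain ⟨s, hs, hsN⟩ := sign_ex c i p N hN.1
    have jk := jac_unit hp (hc k hki)
    have jl := jac_unit hp (hc l hli)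
    have e1 : jacobiSym (κ k * u k) p = s * jacobiSym (c i k) p :=
      (hN.2 k hk).trans (hsN k hki jk)
    have e2 : jacobiSym (κ l * u l) p = s * jacobiSym (c i l) p :=
      (hN.2 l hl).trans (hsN l hli jl)
    have e3 : jacobiSym (c i k) p * jacobiSym (c i k) p = 1 := by
      rcases jk with h | h <;> rw [h] <;> norm_num
    have e4 : jacobiSym (c i l) p * jacobiSym (c i l) p = 1 := by
      rcases jl with h | h <;> rw [h] <;> norm_num
    have e5 : jacobiSym (κ k * u k * (κ l * u l) * (c i k * c i l)) p = 1 := by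
      rw [jacobiSym.mul_left, jacobiSym.mul_left, jacobiSym.mul_left (c i k), e1, e2]
      calc s * jacobiSym (c i k) p * (s * jacobiSym (c i l) p) *
            (jacobiSym (c i k) p * jacobiSym (c i l) p)
          = (s * s) * (jacobiSym (c i k) p * jacobiSym (c i k) p) *
            (jacobiSym (c i l) p * jacobiSym (c i l) p) := by ring
        _ = 1 := by rw [hs, e3, e4]; norm_num
    have e6 : Jr (κ k * u k * (κ l * u l) * (c i k * c i l)) p = 1 := by
      unfold Jr; rw [e5]; norm_num
    rw [e6]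
    linarith

end K

lemma mert : ∃ C : ℝ, 0 ≤ C ∧ ∀ z Y : ℕ, 3 ≤ Y →
    ∑ p ∈ PS z Y, (1 : ℝ) / p ≤ Real.log (Real.log Y) + C := by
  obtain ⟨C, hC⟩ := Pool.Agent.Helper256.KM.mertens_inv
  have hC0 : 0 ≤ C := (abs_nonneg _).trans (hC 3 le_rfl)
  refine ⟨C, hC0, fun z Y hY => ?_⟩
  have h1 := (abs_le.1 (hC Y hY)).2
  have h2 : ∑ p ∈ PS z Y, (1 : ℝ) / p ≤ ∑ p ∈ (Icc 1 Y).filter Nat.Prime, (1 : ℝ) / p := by
    refine sum_le_sum_of_subset_of_nonneg ?_ fun _ _ _ => by positivity
    intro p hp
    unfold PS at hp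
    rw [mem_filter, mem_Ioc] at hp
    rw [mem_filter, mem_Icc]
    exact ⟨⟨hp.2.one_lt.le, hp.1.2⟩, hp.2⟩
  linarith

/-- the size of the modulus -/
lemma size_log {P : ℝ} (hP : 0 ≤ P) : ∃ C : ℝ, 0 ≤ C ∧ ∀ (V : ℕ) (q : ℤ), 1 ≤ V →
    (q.natAbs : ℝ) ≤ P * (V : ℝ) ^ 2 →
    Real.log (Real.log (q.natAbs + 3)) ≤ C + Real.log (Real.log (V + 3)) := by
  have hA : 1 ≤ P + 1 := by linarith
  have hlA : 0 ≤ Real.log (P + 1) := Real.log_nonneg hA
  refine ⟨Real.log (Real.log (P + 1) + 2), Real.log_nonneg (by linarith), fun V q hV hq => ?_⟩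
  have hV1 : (1 : ℝ) ≤ V := by exact_mod_cast hV
  have h1 : ((q.natAbs : ℝ) + 3) ≤ (P + 1) * ((V : ℝ) + 3) ^ 2 := by nlinarith
  have h3 : Real.log 3 ≤ Real.log ((q.natAbs : ℝ) + 3) :=
    Real.log_le_log (by norm_num) (by have : (0 : ℝ) ≤ q.natAbs := Nat.cast_nonneg _; linarith)
  have h3' : 1 ≤ Real.log 3 := by
    rw [Real.le_log_iff_exp_le (by norm_num)]
    have := Real.exp_one_lt_d9
    linarith
  have h4 : 1 ≤ Real.log ((V : ℝ) + 3) :=
    h3'.trans (Real.log_le_log (by norm_num) (by linarith))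
  have h2 : Real.log ((q.natAbs : ℝ) + 3) ≤
      (Real.log (P + 1) + 2) * Real.log ((V : ℝ) + 3) := by
    calc Real.log ((q.natAbs : ℝ) + 3) ≤ Real.log ((P + 1) * ((V : ℝ) + 3) ^ 2) :=
          Real.log_le_log (by positivity) h1
      _ = Real.log (P + 1) + 2 * Real.log ((V : ℝ) + 3) := by
          rw [Real.log_mul (by positivity) (by positivity), Real.log_pow]
          norm_num
      _ ≤ _ := by nlinarith
  calc Real.log (Real.log ((q.natAbs : ℝ) + 3))
      ≤ Real.log ((Real.log (P + 1) + 2) * Real.log ((V : ℝ) + 3)) :=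
        Real.log_le_log (by linarith) h2
    _ = _ := Real.log_mul (by positivity) (by positivity)

lemma pow_a {N : ℕ} (hN : 5 ≤ N) : (2 * N : ℝ) ≤ 3 / 4 * 2 ^ (N - 1) := by
  induction N, hN using Nat.le_induction with
  | base => norm_num
  | succ n hn ih =>
    have e : n + 1 - 1 = (n - 1) + 1 := by omega
    rw [e, pow_succ]
    push_cast
    have : (5 : ℝ) ≤ n := by exact_mod_cast hn
    linarith

lemma pow_b {r : ℕ} (hr : 3 ≤ r) : (r : ℝ) ≤ 3 / 4 * 2 ^ (r - 1) := by
  induction r, hr using Nat.le_induction with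
  | base => norm_num
  | succ n hn ih =>
    have e : n + 1 - 1 = (n - 1) + 1 := by omega
    rw [e, pow_succ]
    push_cast
    have : (3 : ℝ) ≤ n := by exact_mod_cast hn
    linarith

lemma EE_abs {z : ℕ} {a : ℤ} (ha : a ∈ EE z) : a.natAbs ≤ primorial z ∧ a ≠ 0 := by
  unfold EE at ha
  rw [mem_union, mem_image, mem_image] at ha
  have hpos : 0 < primorial z := primorial_pos z
  rcases ha with ⟨n, hn, rfl⟩ | ⟨n, hn, rfl⟩
  · have h1 := Nat.mem_divisors.1 hn
    have h2 := Nat.le_of_dvd hpos h1.1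
    have h3 := Nat.pos_of_dvd_of_pos h1.1 hpos
    exact ⟨by simpa using h2, by exact_mod_cast h3.ne'⟩
  · have h1 := Nat.mem_divisors.1 hn
    have h2 := Nat.le_of_dvd hpos h1.1
    have h3 := Nat.pos_of_dvd_of_pos h1.1 hpos
    exact ⟨by simpa using h2, by
      rw [neg_ne_zero]; exact_mod_cast h3.ne'⟩

theorem prs (h : UBQ) : PRS := by
  classical
  intro K _ _ c hN hc hns
  -- the bound for the determinants
  set Cc : ℕ := ∑ i, ∑ k, (c i k).natAbs with hCc
  have hcc : ∀ i k, (c i k).natAbs ≤ Cc := by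
    intro i k
    have s1 : (c i k).natAbs ≤ ∑ k, (c i k).natAbs :=
      single_le_sum (f := fun k => (c i k).natAbs) (fun _ _ => Nat.zero_le _) (mem_univ k)
    have s2 : ∑ k, (c i k).natAbs ≤ Cc :=
      single_le_sum (f := fun i => ∑ k, (c i k).natAbs) (fun _ _ => Nat.zero_le _) (mem_univ i)
    exact s1.trans s2
  refine ⟨2 + Cc, fun z hz => ?_⟩
  obtain ⟨C0, hC0, hM⟩ := mert
  obtain ⟨C1, hC1⟩ := h z (by omega)
  obtain ⟨C2, hC2, hS⟩ := size_log (P := (primorial z : ℝ) ^ 2 * (Cc : ℝ) ^ 2) (by positivity)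
  refine ⟨C0 + |C1| + C2 + 1, by positivity, ?_⟩
  intro κ hκ Y V I hY hV hI u hu
  have hκ' : ∀ k, κ k ∈ EE z := fun k => Fintype.mem_piFinset.1 hκ k
  unfold UU at hu
  rw [mem_filter, Fintype.mem_piFinset] at hu
  obtain ⟨hu1, hu2, hu3⟩ := hu
  -- sizes
  have hlY : 0 ≤ Real.log (Real.log Y) := by
    apply Real.log_nonneg
    have h3 : Real.log 3 ≤ Real.log Y :=
      Real.log_le_log (by norm_num) (by exact_mod_cast hY)
    have h3' : 1 ≤ Real.log 3 := by
      rw [Real.le_log_iff_exp_le (by norm_num)]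
      have := Real.exp_one_lt_d9
      linarith
    linarith
  have hlV : 0 ≤ Real.log (Real.log ((V : ℝ) + 3)) := by
    apply Real.log_nonneg
    have hV1 : (1 : ℝ) ≤ V := by exact_mod_cast hV
    have h3 : Real.log 3 ≤ Real.log ((V : ℝ) + 3) :=
      Real.log_le_log (by norm_num) (by linarith)
    have h3' : 1 ≤ Real.log 3 := by
      rw [Real.le_log_iff_exp_le (by norm_num)]
      have := Real.exp_one_lt_d9
      linarith
    linarith
  have hMY := hM z Y hY
  set LY := Real.log (Real.log Y) with hLY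
  set LV := Real.log (Real.log ((V : ℝ) + 3)) with hLV
  set C : ℝ := C0 + |C1| + C2 + 1 with hC
  have habs : C1 ≤ |C1| := le_abs_self _
  have habs0 : 0 ≤ |C1| := abs_nonneg _
  have hCLV : C ≤ C * (1 + LV) := by
    have : 0 ≤ C * LV := by positivity
    linarith
  -- primes do not divide the determinants
  have hpc : ∀ p ∈ PS z Y, ∀ i k, i ≠ k → ¬ (p : ℤ) ∣ c i k := by
    intro p hp i k hik hd
    have h1 := Nat.le_of_dvd (Int.natAbs_pos.2 (hc i k hik)) (Int.natCast_dvd.1 hd)
    have h2 := (PS_prime hp).2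
    have h3 := hcc i k
    omega
  -- general bounds of the inner sums
  have hgen : ∀ (i : {k // k ∈ I}) (B : ℝ), 0 ≤ B →
      (∀ p ∈ PS z Y, ((ThI c κ u I i p).card : ℝ) ≤ B) →
      ∑ p ∈ PS z Y, ((ThI c κ u I i p).card : ℝ) / p ≤ B * (LY + C0) := by
    intro i B hB hb
    calc ∑ p ∈ PS z Y, ((ThI c κ u I i p).card : ℝ) / p ≤ ∑ p ∈ PS z Y, B * (1 / (p : ℝ)) := by
          refine sum_le_sum fun p hp => ?_
          rw [mul_one_div]
          exact div_le_div_of_nonneg_right (hb p hp) (Nat.cast_nonneg _)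
      _ = B * ∑ p ∈ PS z Y, 1 / (p : ℝ) := by rw [mul_sum]
      _ ≤ B * (LY + C0) := mul_le_mul_of_nonneg_left hMY hB
  have hhalf : ∀ (i : {k // k ∈ I}) (k l : K), k ∉ I → l ∉ I →
      ¬ IsSquare (κ k * u k * (κ l * u l) * (c i k * c i l)) →
      ∑ p ∈ PS z Y, ((ThI c κ u I i p).card : ℝ) / p ≤
        1 / 2 * (LY + C0) + 1 / 2 * (C2 + LV + C1) := by
    intro i k l hk hl hsq
    set q : ℤ := κ k * u k * (κ l * u l) * (c i k * c i l) with hq
    have huV : ∀ k, k ∉ I → u k ≤ V := by
      intro k hk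
      have := hu1 k
      rw [if_neg hk, mem_Icc] at this
      exact this.2
    have hqs : (q.natAbs : ℝ) ≤ (primorial z : ℝ) ^ 2 * (Cc : ℝ) ^ 2 * (V : ℝ) ^ 2 := by
      have h1 : q.natAbs = (κ k).natAbs * u k * ((κ l).natAbs * u l) *
          ((c i k).natAbs * (c i l).natAbs) := by
        rw [hq]
        simp only [Int.natAbs_mul, Int.natAbs_natCast]
      have h2 : q.natAbs ≤ primorial z * V * (primorial z * V) * (Cc * Cc) := by
        rw [h1]
        have a1 := (EE_abs (hκ' k)).1
        have a2 := (EE_abs (hκ' l)).1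
        have a3 := huV k hk
        have a4 := huV l hl
        have a5 := hcc i k
        have a6 := hcc i l
        gcongr
      calc (q.natAbs : ℝ) ≤ ((primorial z * V * (primorial z * V) * (Cc * Cc) : ℕ) : ℝ) := by
            exact_mod_cast h2
        _ = _ := by push_cast; ring
    have h1 := hS V q hV hqs
    have h2 := hC1 q hsq Y
    calc ∑ p ∈ PS z Y, ((ThI c κ u I i p).card : ℝ) / p
        ≤ ∑ p ∈ PS z Y, (1 / 2 * (1 / (p : ℝ)) + 1 / 2 * (Jr q p / (p : ℝ))) := by
          refine sum_le_sum fun p hp => ?_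
          have hpp := (PS_prime hp).1
          have h3 := card_half c κ u I i hpp (fun k hk => hpc p hp i k hk.symm) hk hl
          have hp0 : (0 : ℝ) < p := by exact_mod_cast hpp.pos
          rw [div_le_iff₀ hp0]
          refine h3.trans (le_of_eq ?_)
          field_simp
          try rw [hq]
      _ = 1 / 2 * ∑ p ∈ PS z Y, 1 / (p : ℝ) + 1 / 2 * ∑ p ∈ PS z Y, Jr q p / (p : ℝ) := by
          rw [sum_add_distrib, mul_sum, mul_sum]
      _ ≤ _ := by
          have h4 : ∑ p ∈ PS z Y, Jr q p / (p : ℝ) ≤ C2 + LV + C1 := by linarith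
          linarith
  have hcardI : Fintype.card {k // k ∈ I} = I.card := Fintype.card_coe I
  rw [hcardI]
  have hIpos : 1 ≤ I.card := card_pos.2 hI
  by_cases hIu : I = univ
  · -- all variables are large
    have hIN : I.card = Fintype.card K := by rw [hIu, card_univ]
    calc ∑ i : {k // k ∈ I}, ∑ p ∈ PS z Y, ((ThI c κ u I i p).card : ℝ) / p
        ≤ ∑ _i : {k // k ∈ I}, 2 * (LY + C0) := by
          refine sum_le_sum fun i _ => hgen i 2 (by norm_num) fun p _ => ?_
          exact_mod_cast card_two c κ u I i p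
      _ = 2 * I.card * (LY + C0) := by
          rw [sum_const, card_univ, hcardI, nsmul_eq_mul]; ring
      _ ≤ 3 / 4 * 2 ^ (I.card - 1) * (LY + C0) := by
          have := pow_a (N := I.card) (by omega)
          have h0 : 0 ≤ LY + C0 := by linarith
          nlinarith
      _ ≤ _ := by
          have h2 : (0 : ℝ) < 2 ^ (I.card - 1) := by positivity
          have h3 : 3 / 4 * (LY + C0) ≤ 3 / 4 * LY + C * (1 + LV) := by linarith
          nlinarith
  · obtain ⟨l0, hl0⟩ : ∃ l, l ∉ I := by
      by_contra hcon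
      push Not at hcon
      exact hIu (eq_univ_iff_forall.2 hcon)
    have hone : ∀ i : {k // k ∈ I}, ∑ p ∈ PS z Y, ((ThI c κ u I i p).card : ℝ) / p ≤
        LY + C0 := by
      intro i
      have := hgen i 1 (by norm_num) fun p _ => by exact_mod_cast card_one c κ u I i p hl0
      linarith
    rcases Nat.lt_or_ge 2 I.card with h3 | h3
    · calc ∑ i : {k // k ∈ I}, ∑ p ∈ PS z Y, ((ThI c κ u I i p).card : ℝ) / p
          ≤ ∑ _i : {k // k ∈ I}, (LY + C0) := sum_le_sum fun i _ => hone i
        _ = I.card * (LY + C0) := by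
            rw [sum_const, card_univ, hcardI, nsmul_eq_mul]
        _ ≤ 3 / 4 * 2 ^ (I.card - 1) * (LY + C0) := by
            have := pow_b (r := I.card) (by omega)
            have h0 : 0 ≤ LY + C0 := by linarith
            nlinarith
        _ ≤ _ := by
            have h2 : (0 : ℝ) < 2 ^ (I.card - 1) := by positivity
            have h3 : 3 / 4 * (LY + C0) ≤ 3 / 4 * LY + C * (1 + LV) := by linarith
            nlinarith
    · have hsub : ∑ i : {k // k ∈ I}, ∑ p ∈ PS z Y, ((ThI c κ u I i p).card : ℝ) / p =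
          ∑ i ∈ I.attach, ∑ p ∈ PS z Y, ((ThI c κ u I i p).card : ℝ) / p := rfl
      rcases Nat.lt_or_ge 1 I.card with h2 | h2
      · -- two large variables
        have hcard2 : I.card = 2 := by omega
        obtain ⟨i, k, hik, hIik⟩ := card_eq_two.1 hcard2
        subst hIik
        have hi : i ∈ ({i, k} : Finset K) := by simp
        have hk : k ∈ ({i, k} : Finset K) := by simp
        obtain ⟨l, l', hli, hlk, hl'i, hl'k, hnsq⟩ := hns i k hik
        have hl : l ∉ ({i, k} : Finset K) := by simp [hli, hlk]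
        have hl' : l' ∉ ({i, k} : Finset K) := by simp [hl'i, hl'k]
        have hsum : ∑ j : {x // x ∈ ({i, k} : Finset K)},
            ∑ p ∈ PS z Y, ((ThI c κ u {i, k} j p).card : ℝ) / p =
            ∑ p ∈ PS z Y, ((ThI c κ u {i, k} ⟨i, hi⟩ p).card : ℝ) / p +
            ∑ p ∈ PS z Y, ((ThI c κ u {i, k} ⟨k, hk⟩ p).card : ℝ) / p := by
          have hu : (univ : Finset {x // x ∈ ({i, k} : Finset K)}) = {⟨i, hi⟩, ⟨k, hk⟩} := by
            ext ⟨x, hx⟩
            simp only [mem_univ, mem_insert, mem_singleton, Subtype.mk.injEq, true_iff]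
            simpa using hx
          rw [hu, sum_pair (by simp [hik])]
        rw [hsum, hcard2]
        have hor : ¬ IsSquare (κ l * u l * (κ l' * u l') * (c i l * c i l')) ∨
            ¬ IsSquare (κ l * u l * (κ l' * u l') * (c k l * c k l')) := by
          by_contra hcon
          push Not at hcon
          obtain ⟨⟨a, ha⟩, ⟨b, hb⟩⟩ := hcon
          apply hnsq
          set m : ℤ := κ l * u l * (κ l' * u l') with hm
          have hm0 : m ≠ 0 := by
            have b1 := (EE_abs (hκ' l)).2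
            have b2 := (EE_abs (hκ' l')).2
            have b3 : (u l : ℤ) ≠ 0 := by
              have := hu1 l
              rw [if_neg hl, mem_Icc] at this
              have : 0 < u l := by omega
              exact_mod_cast this.ne'
            have b4 : (u l' : ℤ) ≠ 0 := by
              have := hu1 l'
              rw [if_neg hl', mem_Icc] at this
              have : 0 < u l' := by omega
              exact_mod_cast this.ne'
            exact mul_ne_zero (mul_ne_zero b1 b3) (mul_ne_zero b2 b4)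
          have hmm : m ^ 2 * (c i l * c i l' * (c k l * c k l')) = (a * b) ^ 2 := by
            calc m ^ 2 * (c i l * c i l' * (c k l * c k l'))
                = (m * (c i l * c i l')) * (m * (c k l * c k l')) := by ring
              _ = (a * a) * (b * b) := by rw [ha, hb]
              _ = (a * b) ^ 2 := by ring
          have hdvd : m ^ 2 ∣ (a * b) ^ 2 := ⟨_, hmm.symm⟩
          have hd : m ∣ a * b := (Int.pow_dvd_pow_iff two_ne_zero).1 hdvd
          obtain ⟨e, he⟩ := hd
          refine ⟨e, ?_⟩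
          have h6 : m ^ 2 * (c i l * c i l' * (c k l * c k l')) = m ^ 2 * (e * e) := by
            rw [hmm, he]; ring
          exact mul_left_cancel₀ (pow_ne_zero 2 hm0) h6
        have hfin : ∀ A B : ℝ, A ≤ 1 / 2 * (LY + C0) + 1 / 2 * (C2 + LV + C1) → B ≤ LY + C0 →
            A + B ≤ (3 / 4 * LY + C * (1 + LV)) * 2 ^ (2 - 1) := by
          intro A B hA hB
          have h7 : LV ≤ C * LV := by
            have : (1 : ℝ) ≤ C := by rw [hC]; linarith
            nlinarith
          have h8 : C * (1 + LV) = C + C * LV := by ring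
          rw [h8, hC]
          norm_num
          rw [hC] at h7
          nlinarith
        rcases hor with hq | hq
        · exact hfin _ _ (hhalf ⟨i, hi⟩ l l' hl hl' hq) (hone ⟨k, hk⟩)
        · rw [add_comm]
          exact hfin _ _ (hhalf ⟨k, hk⟩ l l' hl hl' hq) (hone ⟨i, hi⟩)
      · -- one large variable
        have hcard1 : I.card = 1 := by omega
        obtain ⟨i, hIi⟩ := card_eq_one.1 hcard1
        subst hIi
        have hi : i ∈ ({i} : Finset K) := by simp
        obtain ⟨k, l, hki, hli, hq⟩ := hu3 i rfl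
        have hk : k ∉ ({i} : Finset K) := by simp [hki]
        have hl : l ∉ ({i} : Finset K) := by simp [hli]
        have hsum : ∑ j : {x // x ∈ ({i} : Finset K)},
            ∑ p ∈ PS z Y, ((ThI c κ u {i} j p).card : ℝ) / p =
            ∑ p ∈ PS z Y, ((ThI c κ u {i} ⟨i, hi⟩ p).card : ℝ) / p := by
          have hu : (univ : Finset {x // x ∈ ({i} : Finset K)}) = {⟨i, hi⟩} := by
            ext ⟨x, hx⟩
            simp only [mem_univ, mem_singleton, Subtype.mk.injEq, true_iff]
            simpa using hx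
          rw [hu, sum_singleton]
        rw [hsum, hcard1]
        have h9 := hhalf ⟨i, hi⟩ k l hk hl hq
        have h7 : LV ≤ C * LV := by
          have : (1 : ℝ) ≤ C := by rw [hC]; linarith
          nlinarith
        have h8 : C * (1 + LV) = C + C * LV := by ring
        rw [h8]
        norm_num
        have h10 : C = C0 + |C1| + C2 + 1 := hC
        nlinarith

end Pool.Agent.W554.TW
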